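import Pool.Agent.H44.EQ.Targets

/-!
# Blocks which consist of copies of two functions
-/

set_option autoImplicit false
set_option linter.unusedVariables false

namespace Pool.Agent.H19.EQ

open Pool.Agent.H44.EQ Pool.Agent.H53.GC Pool.Agent.H53.NR Pool.Agent.H68.BP Pool.Agent.H58.SF
open Classical

section

variable {V P X : Type}

theorem con_sel {T : Type} {S : Set (Fin 6)} {a b : T} {l l' : Fin 6} (h : l ∈ S ↔ l' ∈ S) :
    sel S a b l = sel S a b l' := by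
  unfold sel
  by_cases h1 : l ∈ S
  · rw [if_pos h1, if_pos (h.1 h1)]
  · rw [if_neg h1, if_neg (fun h' => h1 (h.2 h'))]

/-- the name of a position: its group, its level and its value -/
noncomputable def con_nm (γ₀ γ₁ : P → V) (e : Fin 6 → ℕ) (S : Set (Fin 6)) (s₀ s₁ : Set V)
    (a : Fin 6 × P) : Prop × ℕ × V :=
  (a.1 ∈ S, kap e {l | sel S γ₀ γ₁ l a.2 ∈ sel S s₀ s₁ l} a.1, sel S γ₀ γ₁ a.1 a.2)

/-- the colours of the pairs of names -/
noncomputable def con_d (c : V → V → X) (N : X) (a b : Prop × ℕ × V) : X :=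
  if a.1 = b.1 ∧ (a.2.1 = b.2.1 ∨ (a.2.1 = 0 ∨ a.2.1 = 7) ∨ (b.2.1 = 0 ∨ b.2.1 = 7)) then
    c a.2.2 b.2.2 else N

theorem con_kap_pos {e : Fin 6 → ℕ} {T : Set (Fin 6)} {l : Fin 6} (h : l ∈ T) :
    kap e T l = e l := by
  unfold kap
  rw [if_pos h]

theorem con_kap_neg {e : Fin 6 → ℕ} {T : Set (Fin 6)} {l : Fin 6} (h : l ∉ T) :
    kap e T l = l.val + 1 := by
  unfold kap
  rw [if_neg h]

/-- equal levels -/
theorem con_lev {e : Fin 6 → ℕ} {S : Set (Fin 6)} (he : ∀ l, e l = 0 ∨ e l = 7)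
    (hS : ∀ l l', (l ∈ S ↔ l' ∈ S) ↔ e l = e l') {T T' : Set (Fin 6)} {l l' : Fin 6}
    (h : kap e T l = kap e T' l') : (l ∈ S ↔ l' ∈ S) ∧ (l = l' ∨ (l ∈ T ∧ l' ∈ T')) := by
  by_cases h1 : l ∈ T
  · by_cases h2 : l' ∈ T'
    · rw [con_kap_pos h1, con_kap_pos h2] at h
      exact ⟨(hS l l').2 h, Or.inr ⟨h1, h2⟩⟩
    · rw [con_kap_pos h1, con_kap_neg h2] at h
      have h3 := he l
      have h4 := l'.2
      omega
  · by_cases h2 : l' ∈ T'
    · rw [con_kap_neg h1, con_kap_pos h2] at h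
      have h3 := he l'
      have h4 := l.2
      omega
    · rw [con_kap_neg h1, con_kap_neg h2] at h
      have h3 : l = l' := Fin.ext (by omega)
      rw [h3]
      exact ⟨Iff.rfl, Or.inl rfl⟩

theorem con_nm_eq {γ₀ γ₁ : P → V} {e : Fin 6 → ℕ} {S : Set (Fin 6)} {s₀ s₁ : Set V}
    (he : ∀ l, e l = 0 ∨ e l = 7) (hS : ∀ l l', (l ∈ S ↔ l' ∈ S) ↔ e l = e l') {l l' : Fin 6}
    {p p' : P} : con_nm γ₀ γ₁ e S s₀ s₁ (l, p) = con_nm γ₀ γ₁ e S s₀ s₁ (l', p') ↔
      ((l ∈ S ↔ l' ∈ S) ∧ sel S γ₀ γ₁ l p = sel S γ₀ γ₁ l' p' ∧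
        (l = l' ∨ sel S γ₀ γ₁ l p ∈ sel S s₀ s₁ l)) := by
  unfold con_nm
  rw [Prod.mk.injEq, Prod.mk.injEq]
  simp only
  constructor
  · rintro ⟨h1, h2, h3⟩
    refine ⟨iff_of_eq h1, h3, ?_⟩
    rcases (con_lev he hS h2).2 with h4 | h4
    · exact Or.inl h4
    · exact Or.inr h4.1
  · rintro ⟨h1, h2, h3⟩
    refine ⟨propext h1, ?_, h2⟩
    rcases h3 with h3 | h3
    · subst h3
      by_cases h4 : sel S γ₀ γ₁ l p ∈ sel S s₀ s₁ l
      · rw [con_kap_pos (show l ∈ {l | sel S γ₀ γ₁ l p ∈ sel S s₀ s₁ l} from h4),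
          con_kap_pos (show l ∈ {l | sel S γ₀ γ₁ l p' ∈ sel S s₀ s₁ l} by
            show sel S γ₀ γ₁ l p' ∈ sel S s₀ s₁ l
            rw [← h2]
            exact h4)]
      · rw [con_kap_neg (show l ∉ {l | sel S γ₀ γ₁ l p ∈ sel S s₀ s₁ l} from h4),
          con_kap_neg (show l ∉ {l | sel S γ₀ γ₁ l p' ∈ sel S s₀ s₁ l} by
            show ¬ sel S γ₀ γ₁ l p' ∈ sel S s₀ s₁ l
            rw [← h2]
            exact h4)]
    · rw [con_kap_pos (show l ∈ {l | sel S γ₀ γ₁ l p ∈ sel S s₀ s₁ l} from h3),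
        con_kap_pos (show l' ∈ {l | sel S γ₀ γ₁ l p' ∈ sel S s₀ s₁ l} by
          show sel S γ₀ γ₁ l' p' ∈ sel S s₀ s₁ l'
          rw [← h2, ← con_sel h1]
          exact h3)]
      exact (hS l l').1 h1

theorem con_d_N {c : V → V → X} {N : X} (diag : ∀ x, c x x = N) {a b : Prop × ℕ × V}
    (h : a.2.2 = b.2.2) : con_d c N a b = N := by
  unfold con_d
  split_ifs
  · rw [h, diag]
  · rfl

theorem con_d_of {c : V → V → X} {N : X} {a b : Prop × ℕ × V} (h : con_d c N a b ≠ N) :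
    con_d c N a b = c a.2.2 b.2.2 := by
  unfold con_d at h ⊢
  split_ifs at h ⊢ with h1
  · rfl
  · exact absurd rfl h

end

theorem pf_CON (hC : T_CFG) : T_CON := by
  intro σ V X _ 𝔸 M c N hs P _ γ₀ γ₁ e S s₀ s₁ he hS
  obtain ⟨nm, hnm⟩ : ∃ nm, nm = con_nm γ₀ γ₁ e S s₀ s₁ := ⟨_, rfl⟩
  have hfin : Finite (Set.range nm) := Set.finite_range nm
  obtain ⟨f, hf, hfc⟩ := hC σ V X 𝔸 M c N hs (Set.range nm) (ℕ ×ₗ V)
    (fun a => toLex (a.1.2.1, a.1.2.2)) (fun a b => con_d c N a.1 b.1) (by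
      rintro ⟨_, ⟨l, p⟩, rfl⟩ ⟨_, ⟨l', p'⟩, rfl⟩ h
      simp only [EmbeddingLike.apply_eq_iff_eq, Prod.mk.injEq] at h
      apply Subtype.ext
      rw [hnm] at h ⊢
      refine Prod.ext ?_ (Prod.ext h.1 h.2)
      exact propext (con_lev he hS h.1).1) (by
      intro x y
      unfold con_d
      have h1 : (x.1.1 = y.1.1 ∧ (x.1.2.1 = y.1.2.1 ∨ (x.1.2.1 = 0 ∨ x.1.2.1 = 7) ∨
          (y.1.2.1 = 0 ∨ y.1.2.1 = 7))) ↔ (y.1.1 = x.1.1 ∧ (y.1.2.1 = x.1.2.1 ∨
          (y.1.2.1 = 0 ∨ y.1.2.1 = 7) ∨ (x.1.2.1 = 0 ∨ x.1.2.1 = 7))) := by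
        rw [eq_comm (a := x.1.1), eq_comm (a := x.1.2.1) (b := y.1.2.1)]
        tauto
      by_cases h2 : (x.1.1 = y.1.1 ∧ (x.1.2.1 = y.1.2.1 ∨ (x.1.2.1 = 0 ∨ x.1.2.1 = 7) ∨
          (y.1.2.1 = 0 ∨ y.1.2.1 = 7)))
      · rw [if_pos h2, if_pos (h1.1 h2), hs.sym]
      · rw [if_neg h2, if_neg (fun h => h2 (h1.2 h))])
    (fun x => con_d_N hs.diag rfl) (by
      intro K hK
      refine ⟨fun a => a.1.2.2, ?_, ?_⟩
      · intro x hx y hy hxy
        by_contra hne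
        exact hK x hx y hy hne (con_d_N hs.diag hxy)
      · intro x hx y hy hxy
        exact (con_d_of (hK x hx y hy hxy)).symm)
  have hinj : ∀ a b, f a = f b ↔ a = b := by
    intro a b
    refine ⟨fun h => ?_, fun h => by rw [h]⟩
    rcases lt_trichotomy (toLex (a.1.2.1, a.1.2.2)) (toLex (b.1.2.1, b.1.2.2)) with h1 | h1 | h1
    · exact absurd h (hf a b h1).ne
    · obtain ⟨_, ⟨l, p⟩, rfl⟩ := a
      obtain ⟨_, ⟨l', p'⟩, rfl⟩ := b
      simp only [EmbeddingLike.apply_eq_iff_eq, Prod.mk.injEq] at h1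
      apply Subtype.ext
      rw [hnm] at h1 ⊢
      refine Prod.ext ?_ (Prod.ext h1.1 h1.2)
      exact propext (con_lev he hS h1.1).1
    · exact absurd h (hf b a h1).ne'
  obtain ⟨z, hz⟩ : ∃ z : P → Fin 6 → V, z = fun p l => f ⟨nm (l, p), _, rfl⟩ := ⟨_, rfl⟩
  have h3 : ∀ p p' l l', z p l = z p' l' ↔ ((l ∈ S ↔ l' ∈ S) ∧
      sel S γ₀ γ₁ l p = sel S γ₀ γ₁ l' p' ∧ (l = l' ∨ sel S γ₀ γ₁ l p ∈ sel S s₀ s₁ l)) := by
    intro p p' l l'
    rw [hz]
    simp only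
    rw [hinj, Subtype.mk.injEq, hnm]
    exact con_nm_eq he hS
  have hc : ∀ p p' l l', c (z p l) (z p' l') = con_d c N (nm (l, p)) (nm (l', p')) := by
    intro p p' l l'
    rw [hz]
    simp only
    rw [hfc]
  refine ⟨z, ?_, ?_, h3⟩
  · intro l p p'
    unfold ceq
    by_cases h : sel S γ₀ γ₁ l p = sel S γ₀ γ₁ l p'
    · rw [if_pos ((h3 p p' l l).2 ⟨Iff.rfl, h, Or.inl rfl⟩), if_pos h]
    · rw [if_neg (fun h' => h ((h3 p p' l l).1 h').2.1), if_neg h, hc]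
      congr 1
      unfold con_d
      rw [if_pos]
      · rw [hnm]
        rfl
      · rw [hnm]
        refine ⟨rfl, ?_⟩
        unfold con_nm
        simp only
        by_cases h1 : l ∈ {l | sel S γ₀ γ₁ l p ∈ sel S s₀ s₁ l}
        · right
          left
          rw [con_kap_pos h1]
          exact he l
        · by_cases h2 : l ∈ {l | sel S γ₀ γ₁ l p' ∈ sel S s₀ s₁ l}
          · right
            right
            rw [con_kap_pos h2]
            exact he l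
          · left
            rw [con_kap_neg h1, con_kap_neg h2]
  · intro p
    obtain ⟨T, hT⟩ : ∃ T, T = {l | sel S γ₀ γ₁ l p ∈ sel S s₀ s₁ l} := ⟨_, rfl⟩
    rw [← hT]
    have hlt : ∀ l l', kap e T l < kap e T l' → z p l < z p l' := by
      intro l l' h
      rw [hz]
      simp only
      apply hf
      rw [Prod.Lex.toLex_lt_toLex]
      left
      rw [hnm]
      unfold con_nm
      simp only
      rw [← hT]
      exact h
    have hfree : ∀ l l', kap e T l < kap e T l' → c (z p l) (z p l') = N := by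
      intro l l' h
      rw [hc]
      by_cases hg : l ∈ S ↔ l' ∈ S
      · apply con_d_N hs.diag
        rw [hnm]
        unfold con_nm
        simp only
        rw [con_sel hg]
      · unfold con_d
        rw [if_neg]
        intro h'
        apply hg
        have h1 := h'.1
        rw [hnm] at h1
        exact iff_of_eq h1
    refine ⟨?_, ?_, ?_⟩
    · intro l l' h
      obtain ⟨h1, h2⟩ := con_lev he hS h
      have h4 : z p l = z p l' := by
        rw [h3]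
        refine ⟨h1, by rw [con_sel h1], ?_⟩
        rcases h2 with h2 | h2
        · exact Or.inl h2
        · right
          have h5 := h2.1
          rw [hT] at h5
          exact h5
      exact ⟨h4, h4⟩
    · intro l l' h
      exact ⟨hlt l l' h, hlt l l' h, hlt l l' h, hlt l l' h⟩
    · intro l l' h
      exact ⟨hfree l l' h, hfree l l' h, hfree l l' h, hfree l l' h⟩

end Pool.Agent.H19.EQ
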