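import Pool.Agent.H44.EQ.Targets

/-!
# The limit of binary injections
-/

set_option autoImplicit false
set_option linter.unusedVariables false

namespace Pool.Agent.H19.EQ

open Pool.Agent.H44.EQ Pool.Agent.H53.GC Pool.Agent.H53.NR Pool.Agent.H68.BP Pool.Agent.H58.SF
open Classical Filter

/-- the binary polymorphism on a finite set, extended to all pairs -/
theorem lmt_exists_G {V : Type} {σ : Sig} [Nonempty V] {𝔸 : Str σ V} (hI : Inj2 𝔸) (K : Finset V) :
    ∃ G : V → V → V, (∀ (l : Fin σ.m) (a b : Fin (σ.ar l) → V), (∀ i, a i ∈ K) →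
      (∀ i, b i ∈ K) → 𝔸 l a → 𝔸 l b → 𝔸 l fun i => G (a i) (b i)) ∧
      ∀ x ∈ K, ∀ y ∈ K, ∀ x' ∈ K, ∀ y' ∈ K, G x y = G x' y' → x = x' ∧ y = y' := by
  obtain ⟨γ, hγ, hinj⟩ := hI K.card (fun i => (K.equivFin.symm i : V))
    (Subtype.val_injective.comp K.equivFin.symm.injective)
  have i0 : V := Classical.choice inferInstance
  refine ⟨fun x y => if h : x ∈ K ∧ y ∈ K then
    γ (K.equivFin ⟨x, h.1⟩, K.equivFin ⟨y, h.2⟩) else i0, ?_, ?_⟩
  · intro l a b ha hb h1 h2
    have h3 := hγ l (fun i => K.equivFin ⟨a i, ha i⟩) (fun i => K.equivFin ⟨b i, hb i⟩)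
      (by simpa using h1) (by simpa using h2)
    have h4 : (fun i => if h : a i ∈ K ∧ b i ∈ K then
        γ (K.equivFin ⟨a i, h.1⟩, K.equivFin ⟨b i, h.2⟩) else i0) =
        fun i => γ (K.equivFin ⟨a i, ha i⟩, K.equivFin ⟨b i, hb i⟩) := by
      funext i
      rw [dif_pos ⟨ha i, hb i⟩]
    rw [h4]
    exact h3
  · intro x hx y hy x' hx' y' hy' h
    simp only at h
    rw [dif_pos ⟨hx, hy⟩, dif_pos ⟨hx', hy'⟩] at h
    have h1 := hinj h
    rw [Prod.mk.injEq] at h1
    exact ⟨by simpa using h1.1, by simpa using h1.2⟩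

theorem lmt_exists_lim {T Y : Type} [Finite Y] (U : Ultrafilter T) (f : T → Y) :
    ∃ y, ∀ᶠ t in (U : Filter T), f t = y := by
  have h1 : ∀ᶠ t in (U : Filter T), ∃ y ∈ (Set.univ : Set Y), f t = y :=
    Eventually.of_forall fun t => ⟨f t, trivial, rfl⟩
  obtain ⟨y, -, hy⟩ := (Ultrafilter.eventually_exists_mem_iff (Set.finite_univ)).1 h1
  exact ⟨y, hy⟩

theorem pf_LMT : T_LMT := by
  intro σ V X _ 𝔸 M c N hs hI
  have := hs.ne
  have := hs.fin
  choose G hG hGi using lmt_exists_G (𝔸 := 𝔸) hI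
  obtain ⟨hK, hhK⟩ : ∃ hK : (Fin 2 → V) → (Fin 2 → V) → Finset V → Option X,
      hK = fun v w K => ceq c (G K (v 0) (v 1)) (G K (w 0) (w 1)) := ⟨_, rfl⟩
  obtain ⟨U, hU⟩ := Ultrafilter.exists_le (atTop : Filter (Finset V))
  choose h hh using fun v w => lmt_exists_lim U (hK v w)
  have hin : ∀ K₀ : Finset V, ∀ᶠ K in (U : Filter (Finset V)), K₀ ⊆ K := fun K₀ =>
    hU (eventually_ge_atTop K₀)
  refine ⟨h, ⟨?_, ?_⟩, ?_⟩
  · intro v
    obtain ⟨K, hK'⟩ := (hh v v).exists
    rw [← hK', hhK]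
    simp [ceq]
  · intro s v hv
    have h1 : ∀ᶠ K in (U : Filter (Finset V)), ∀ a b, hK (v a) (v b) K = h (v a) (v b) := by
      rw [eventually_all]
      intro a
      rw [eventually_all]
      intro b
      exact hh _ _
    obtain ⟨K, hK1, hK2⟩ := (h1.and (hin (Finset.univ.image fun a => v a 0) |>.and
      (hin (Finset.univ.image fun a => v a 1)))).exists
    refine ⟨fun a => G K (v a 0) (v a 1), ?_, ?_⟩
    · cases s with
      | none => trivial
      | some l =>
        refine hG K l (fun a => v a 0) (fun a => v a 1) (fun i => hK2.1 ?_) (fun i => hK2.2 ?_)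
          (hv 0) (hv 1)
        · exact Finset.mem_image_of_mem _ (Finset.mem_univ i)
        · exact Finset.mem_image_of_mem (fun a => v a 1) (Finset.mem_univ i)
    · intro a b
      rw [← hK1 a b, hhK]
  · intro v w hvw hn
    obtain ⟨K, hK1, hK2⟩ := ((hh v w).and (hin {v 0, v 1, w 0, w 1})).exists
    rw [hn, hhK] at hK1
    have h2 : G K (v 0) (v 1) = G K (w 0) (w 1) := by
      by_contra hne
      simp [ceq, hne] at hK1
    obtain ⟨h3, h4⟩ := hGi K _ (hK2 (by simp)) _ (hK2 (by simp)) _ (hK2 (by simp)) _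
      (hK2 (by simp)) h2
    apply hvw
    funext i
    fin_cases i
    · exact h3
    · exact h4

end Pool.Agent.H19.EQ
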