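import Pool.Agent.H44.EQ.Targets

/-!
# From orders to tournaments in the first coordinate
-/

set_option autoImplicit false
set_option linter.unusedVariables false

namespace Pool.Agent.H19.EQ

open Pool.Agent.H44.EQ Pool.Agent.H53.GC Pool.Agent.H53.NR Pool.Agent.H68.BP Pool.Agent.H58.SF
open Classical

section

variable {V X : Type} {σ : Sig}

theorem to1_ceq_eq {c : V → V → X} {x y : V} (h : x = y) : ceq c x y = none := by
  unfold ceq
  rw [if_pos h]

theorem to1_ceq_ne {c : V → V → X} {x y : V} (h : x ≠ y) : ceq c x y = some (c x y) := by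
  unfold ceq
  rw [if_neg h]

theorem to1_ceq_none {c : V → V → X} {x y : V} (h : ceq c x y = none) : x = y := by
  by_contra hne
  rw [to1_ceq_ne hne] at h
  exact absurd h (by simp)

theorem to1_ceq_some {c : V → V → X} {x y : V} {t : X} (h : ceq c x y = some t) :
    x ≠ y ∧ c x y = t := by
  have hne : x ≠ y := by
    intro he
    rw [to1_ceq_eq he] at h
    exact absurd h (by simp)
  rw [to1_ceq_ne hne] at h
  exact ⟨hne, by simpa using h⟩

/-- relations (and the full relation) are unions of types -/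
theorem to1_typ {𝔸 : Str σ V} {M : ℕ} {c : V → V → X} (h : TypeClosed 𝔸 c)
    (s : Option (Fin σ.m)) {x y : Fin (arP σ M s) → V} (hx : relP 𝔸 M s x)
    (hxy : ∀ a b, ceq c (y a) (y b) = ceq c (x a) (x b)) : relP 𝔸 M s y := by
  cases s with
  | none => trivial
  | some l => exact h l x y hx fun a b => (hxy a b).symm

theorem to1_shift {𝔸 : Str σ V} {M : ℕ} {c : V → V → X} {p : ℕ} [NeZero p]
    {w : (ZMod p → X) → X} (hw : CycPol 𝔸 M c p w) (t : ZMod p → X) (j : ZMod p) :
    w (fun i => t (i - j)) = w t := by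
  have h1 : ∀ k : ℕ, w (fun i => t (i + k)) = w t := by
    intro k
    induction k with
    | zero => simp
    | succ k ih =>
      rw [← ih, ← hw.cyc (fun i => t (i + k))]
      congr 1
      funext i
      push_cast
      congr 1
      ring
  have h2 := h1 (-j).val
  rw [ZMod.natCast_zmod_val] at h2
  rw [← h2]
  congr 1
  funext i
  rw [sub_eq_add_neg]

end

theorem pf_TO1 (hA : T_ALW) (hO : T_ORD) : T_TO1 := by
  intro σ V X _ 𝔸 M c N hs hcyc F lam rho hL
  choose P hP using hA
  obtain ⟨p, w, hp, hodd, hw⟩ := hcyc (∑ s : Option (Fin σ.m), P (arP σ M s))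
  have hPs : ∀ s : Option (Fin σ.m), P (arP σ M s) ≤ p := fun s =>
    (Finset.single_le_sum (f := fun s => P (arP σ M s)) (fun _ _ => Nat.zero_le _)
      (Finset.mem_univ s)).trans hp
  have hp0 : NeZero p := ⟨by rintro rfl; simp at hodd⟩
  obtain ⟨I0, hI0⟩ : ∃ I0 : ZMod p → Prop, I0 = fun i => i.val < (p + 1) / 2 := ⟨_, rfl⟩
  refine ⟨fun s t t' => w (fun i => F (s ↔ I0 i) t t'), fun t => w (fun _ => lam t),
    fun t => w (fun _ => rho t), ?_⟩
  intro s x y o ho hx hy
  -- the tournament on the indices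
  obtain ⟨rk, hinj, hrk⟩ := hP (arP σ M s) p (hPs s) hodd
    (fun a b => if x a ≠ x b then o (x a) (x b) else a < b) (by
      intro a b hab
      by_cases h : x a = x b
      · rw [if_neg (by simp [h]), if_neg (by simp [h])]
        constructor
        · intro h1
          exact not_lt.2 h1.le
        · intro h1
          exact lt_of_le_of_ne (not_lt.1 h1) hab
      · rw [if_pos h, if_pos (Ne.symm h)]
        exact ho _ _ h)
  obtain ⟨lb, hlb⟩ : ∃ lb : Fin (arP σ M s) → Fin (arP σ M s),
      lb = fun a => Classical.choose (⟨a, rfl⟩ : ∃ b, x b = x a) := ⟨_, rfl⟩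
  have hxl : ∀ a, x (lb a) = x a := by
    intro a
    rw [hlb]
    exact Classical.choose_spec (⟨a, rfl⟩ : ∃ b, x b = x a)
  obtain ⟨rkV, hrkV⟩ : ∃ rkV : ZMod p → V → ℕ, ∀ i a, rkV i (x a) = rk i (lb a) := by
    refine ⟨fun i v => if h : ∃ b, x b = v then rk i (Classical.choose h) else 0, ?_⟩
    intro i a
    simp only
    rw [dif_pos ⟨a, rfl⟩, hlb]
  have hord := fun i : ZMod p => hO σ V X 𝔸 M c N hs (arP σ M s) x ℕ (rkV i) (by
    intro a b h
    rw [hrkV, hrkV] at h
    have h1 := hinj i h
    rw [← hxl a, ← hxl b, h1])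
  choose x' hx' hlt using hord
  have hlin := fun i : ZMod p => hL s (x' i) y (to1_typ hs.typ s hx (hx' i)) hy
  choose z hz hzz using hlin
  have hker : ∀ i a b, z i a = z i b ↔ x a = x b ∧ y a = y b := by
    intro i a b
    have h1 := hzz i a b
    rw [hx'] at h1
    by_cases hxa : x a = x b
    · by_cases hya : y a = y b
      · rw [to1_ceq_eq hxa, to1_ceq_eq hya] at h1
        have h2 : ceq c (z i a) (z i b) = none := h1
        exact ⟨fun _ => ⟨hxa, hya⟩, fun _ => to1_ceq_none h2⟩
      · rw [to1_ceq_eq hxa, to1_ceq_ne hya] at h1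
        have h2 : ceq c (z i a) (z i b) = some (lam (c (y a) (y b))) := h1
        exact ⟨fun h => absurd h (to1_ceq_some h2).1, fun h => absurd h.2 hya⟩
    · by_cases hya : y a = y b
      · rw [to1_ceq_ne hxa, to1_ceq_eq hya] at h1
        have h2 : ceq c (z i a) (z i b) = some (rho (c (x a) (x b))) := h1
        exact ⟨fun h => absurd h (to1_ceq_some h2).1, fun h => absurd h.1 hxa⟩
      · rw [to1_ceq_ne hxa, to1_ceq_ne hya] at h1
        have h2 : ceq c (z i a) (z i b) = some _ := h1
        exact ⟨fun h => absurd h (to1_ceq_some h2).1, fun h => absurd h.1 hxa⟩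
  obtain ⟨y', hy', hyy⟩ := hw.rel s z hz (fun i j a b => by rw [hker, hker])
  refine ⟨y', hy', ?_⟩
  intro a b
  obtain ⟨hk, hc⟩ := hyy a b
  by_cases hxa : x a = x b
  · by_cases hya : y a = y b
    · rw [to1_ceq_eq hxa, to1_ceq_eq hya, to1_ceq_eq (hk.2 ((hker 0 a b).2 ⟨hxa, hya⟩))]
      rfl
    · have h0 : z 0 a ≠ z 0 b := fun h => hya ((hker 0 a b).1 h).2
      rw [to1_ceq_eq hxa, to1_ceq_ne hya, to1_ceq_ne (fun h => h0 (hk.1 h)), hc h0]
      show some _ = some _
      congr 2
      funext i
      have h1 := hzz i a b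
      rw [hx', to1_ceq_eq hxa, to1_ceq_ne hya] at h1
      exact (to1_ceq_some (t := lam (c (y a) (y b))) h1).2
  · by_cases hya : y a = y b
    · have h0 : z 0 a ≠ z 0 b := fun h => hxa ((hker 0 a b).1 h).1
      rw [to1_ceq_ne hxa, to1_ceq_eq hya, to1_ceq_ne (fun h => h0 (hk.1 h)), hc h0]
      show some _ = some _
      congr 2
      funext i
      have h1 := hzz i a b
      rw [hx', to1_ceq_ne hxa, to1_ceq_eq hya] at h1
      exact (to1_ceq_some (t := rho (c (x a) (x b))) h1).2
    · have h0 : z 0 a ≠ z 0 b := fun h => hxa ((hker 0 a b).1 h).1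
      rw [to1_ceq_ne hxa, to1_ceq_ne hya, to1_ceq_ne (fun h => h0 (hk.1 h)), hc h0]
      show some _ = some _
      congr 1
      have hval : ∀ i, c (z i a) (z i b) =
          F (rk i (lb a) < rk i (lb b) ↔ y a < y b) (c (x a) (x b)) (c (y a) (y b)) := by
        intro i
        have h1 := hzz i a b
        rw [hx', to1_ceq_ne hxa, to1_ceq_ne hya] at h1
        have h2 := (to1_ceq_some (t := F (x' i a < x' i b ↔ y a < y b) (c (x a) (x b))
          (c (y a) (y b))) h1).2
        rw [h2]
        congr 1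
        rw [hlt, hrkV, hrkV]
      have hlab : lb a ≠ lb b := by
        intro h
        apply hxa
        rw [← hxl a, ← hxl b, h]
      have hxlb : x (lb a) ≠ x (lb b) := by rwa [hxl, hxl]
      obtain ⟨j, hj⟩ : ∃ j : ZMod p, ∀ i, (rk i (lb a) < rk i (lb b) ↔ y a < y b) =
          ((o (x a) (x b) ↔ y a < y b) ↔ I0 (i - j)) := by
        by_cases hoab : o (x a) (x b)
        · obtain ⟨j, hj⟩ := hrk (lb a) (lb b) hlab (by
            rw [if_pos hxlb, hxl, hxl]
            exact hoab)
          refine ⟨j, fun i => ?_⟩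
          rw [hj i, hI0]
          apply propext
          simp only
          tauto
        · have hoba : o (x b) (x a) := by
            by_contra hcon
            exact hoab ((ho _ _ hxa).2 hcon)
          obtain ⟨j, hj⟩ := hrk (lb b) (lb a) hlab.symm (by
            rw [if_pos hxlb.symm, hxl, hxl]
            exact hoba)
          refine ⟨j, fun i => ?_⟩
          have h3 : rk i (lb a) < rk i (lb b) ↔ ¬ I0 (i - j) := by
            rw [hI0]
            simp only
            rw [← hj i, not_lt]
            exact ⟨fun h => h.le, fun h => lt_of_le_of_ne h (fun h' => hlab (hinj i h'))⟩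
          rw [h3]
          apply propext
          tauto
      have h4 : (fun i => c (z i a) (z i b)) = fun i => (fun i =>
          F ((o (x a) (x b) ↔ y a < y b) ↔ I0 i) (c (x a) (x b)) (c (y a) (y b))) (i - j) := by
        funext i
        rw [hval, hj]
      rw [h4]
      exact to1_shift hw (fun i =>
        F ((o (x a) (x b) ↔ y a < y b) ↔ I0 i) (c (x a) (x b)) (c (y a) (y b))) j

end Pool.Agent.H19.EQ
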