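import Pool.Agent.H57.EQ.Targets

/-!
# The injective part is a structure of the kind of the table GC
-/

set_option autoImplicit false
set_option linter.unusedVariables false

namespace Pool.Agent.H19.EQ

open Pool.Agent.H57.EQ Pool.Agent.H53.GC Pool.Agent.H53.NR Pool.Agent.H68.BP Pool.Agent.H58.SF

section

variable {V X : Type} {c : V → V → Option X} {fr : X}

theorem cps_diag (hc : Col c) (x : V) : cD c fr x x = fr := by
  unfold cD
  rw [(hc.none_iff x x).2 rfl]
  rfl

theorem cps_some (hc : Col c) {x y : V} (h : x ≠ y) : c x y = some (cD c fr x y) := by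
  unfold cD
  cases hcc : c x y with
  | none => exact absurd ((hc.none_iff x y).1 hcc) h
  | some t => rfl

theorem cps_symm (hc : Col c) (x y : V) : cD c fr x y = cD c fr y x := by
  unfold cD
  rw [hc.symm]

end

theorem pf_CPS : T_CPS := by
  intro σ V X _ 𝔸 M c fr hs
  have hc := hs.col
  obtain ⟨x0, y0, -⟩ := hc.surj fr
  refine ⟨hs.fin, ⟨x0⟩, by have := hs.three; omega, ⟨fun x y => cps_diag hc x,
    fun x y => cps_diag hc y, ?_⟩, ?_, ?_⟩
  · intro t
    obtain ⟨x, y, h⟩ := hc.surj t
    refine ⟨x, y, ?_⟩
    unfold cD
    rw [h]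
    rfl
  · intro n d hd
    have hdd : ∀ i, d i i = fr := by
      intro i
      obtain ⟨v, hv⟩ := hd 1 (fun _ => i) (by have := hs.three; omega)
        (fun a b hab => by
          have h1 := a.2
          have h2 := b.2
          have h3 : (a : ℕ) < b := hab
          omega)
        (fun a b hab => by
          have h1 := a.2
          have h2 := b.2
          have h3 : (a : ℕ) < b := hab
          omega)
      rw [← hv 0 0 le_rfl, cps_diag hc]
    obtain ⟨f, hf, hfc⟩ := hs.uni n d (by
      intro m s hm hsm hne
      obtain ⟨v, hv⟩ := hd m s hm hsm hne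
      refine ⟨v, fun i j hij => ?_⟩
      have h1 := hv i j hij.le
      have h2 : v i ≠ v j := by
        intro h
        rw [h, cps_diag hc] at h1
        exact hne i j hij h1.symm
      rw [cps_some (fr := fr) hc h2, h1])
    refine ⟨f, hf, fun i j hij => ?_⟩
    rcases eq_or_lt_of_le hij with h | h
    · rw [h, cps_diag hc, hdd]
    · have h1 := hfc i j h
      have h2 := cps_some (fr := fr) hc (hf h).ne
      rw [h1] at h2
      exact (Option.some_injective _ h2).symm
  · intro l x y hx hxy hxy'
    obtain ⟨hxi, hxA⟩ := hx
    have hyi : Function.Injective y := fun a b h => hxi (hxy' a b h)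
    refine ⟨hyi, hs.inv _ _ _ hxA fun a b => ?_⟩
    have key : ∀ a b, c (y a) (y b) = c (x a) (x b) := by
      intro a b
      by_cases hab : a = b
      · rw [hab, (hc.none_iff _ _).2 rfl, (hc.none_iff _ _).2 rfl]
      · rw [cps_some (fr := fr) hc (fun h => hab (hyi h)),
          cps_some (fr := fr) hc (fun h => hab (hxi h))]
        congr 1
        rcases le_total (y a) (y b) with h | h
        · exact hxy a b h
        · rw [cps_symm hc, hxy b a h, cps_symm hc]
    exact key _ _

end Pool.Agent.H19.EQ
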