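import Pool.Agent.H71.EQ.Targets

/-!
# Board EQ (MP_7ecdd4_nt), row CTB: the number of tuples of small height
-/

set_option autoImplicit false

open Pool.Agent.H38.AE.Statement Pool.Agent.H38.AT Pool.Agent.H71.EQ

namespace Pool.Agent.H19.EQ

theorem le_height {n : ℕ} (x : Fin n → ℤ) (i : Fin n) : |x i| ≤ (height x : ℤ) := by
  have h1 : (x i).natAbs ≤ height x := Finset.le_sup (f := fun i => (x i).natAbs)
    (Finset.mem_univ i)
  rw [Int.abs_eq_natAbs]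
  exact_mod_cast h1

theorem mem_box {n : ℕ} {x : Fin n → ℤ} {H : ℝ} (hx : (height x : ℝ) ≤ H) (i : Fin n) :
    x i ∈ Finset.Icc (-⌊H⌋) ⌊H⌋ := by
  have h1 := le_height x i
  have h2 : (height x : ℤ) ≤ ⌊H⌋ := Int.le_floor.2 (by exact_mod_cast hx)
  rw [Finset.mem_Icc]
  exact abs_le.1 (h1.trans h2)

theorem box_fin (n : ℕ) (H : ℝ) : {x : Fin n → ℤ | (height x : ℝ) ≤ H}.Finite := by
  refine (Fintype.piFinset fun _ : Fin n => Finset.Icc (-⌊H⌋) ⌊H⌋).finite_toSet.subset ?_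
  intro x hx
  rw [Finset.mem_coe, Fintype.mem_piFinset]
  exact mem_box hx

/-- a tuple with sum `0` is determined by its first entries -/
theorem box_card (k : ℕ) (H : ℝ) (hH : 0 ≤ H) (F : Finset (Fin (k + 1) → ℤ))
    (hF : ∀ x ∈ F, (height x : ℝ) ≤ H ∧ ∑ i, x i = 0) : (F.card : ℝ) ≤ (2 * H + 1) ^ k := by
  have h1 : F.card ≤ (Fintype.piFinset fun _ : Fin k => Finset.Icc (-⌊H⌋) ⌊H⌋).card := by
    refine Finset.card_le_card_of_injOn (fun x => fun i : Fin k => x i.castSucc) ?_ ?_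
    · intro x hx
      rw [Finset.mem_coe, Fintype.mem_piFinset]
      exact fun i => mem_box (hF x hx).1 _
    · intro x hx y hy hxy
      have h2 : ∀ i : Fin k, x i.castSucc = y i.castSucc := fun i => congrFun hxy i
      have h3 := (hF x hx).2
      have h4 := (hF y hy).2
      rw [Fin.sum_univ_castSucc] at h3 h4
      have h5 : ∑ i : Fin k, x i.castSucc = ∑ i : Fin k, y i.castSucc :=
        Finset.sum_congr rfl fun i _ => h2 i
      funext i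
      refine Fin.lastCases ?_ h2 i
      linarith
  rw [Fintype.card_piFinset, Finset.prod_const, Finset.card_univ, Fintype.card_fin,
    Int.card_Icc] at h1
  have h2 : 0 ≤ ⌊H⌋ := Int.floor_nonneg.2 hH
  have h3 : ((⌊H⌋ + 1 - -⌊H⌋).toNat : ℝ) ≤ 2 * H + 1 := by
    have h4 : (((⌊H⌋ + 1 - -⌊H⌋).toNat : ℤ) : ℝ) = ((⌊H⌋ + 1 - -⌊H⌋ : ℤ) : ℝ) := by
      rw [Int.toNat_of_nonneg (by linarith)]
    have h5 : ((⌊H⌋ + 1 - -⌊H⌋).toNat : ℝ) = ((⌊H⌋ + 1 - -⌊H⌋ : ℤ) : ℝ) := by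
      rw [← h4]
      push_cast
      rfl
    rw [h5]
    push_cast
    linarith [Int.floor_le H]
  calc (F.card : ℝ) ≤ (((⌊H⌋ + 1 - -⌊H⌋).toNat ^ k : ℕ) : ℝ) := by exact_mod_cast h1
    _ = ((⌊H⌋ + 1 - -⌊H⌋).toNat : ℝ) ^ k := by push_cast; ring
    _ ≤ (2 * H + 1) ^ k := pow_le_pow_left₀ (by positivity) h3 k

theorem pf_CTB (h1 : Pool.Agent.H38.EQ.T_TGT) : T_CTB := by
  classical
  intro k hk
  obtain ⟨ε₀, hε₀, h2⟩ := h1 (k + 1) (by omega)
  obtain ⟨Y, lam, X₀, hY, hlam, hX₀, h3⟩ := h2 1 one_pos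
  have hn : ((k + 1 : ℕ) : ℝ) = (k : ℝ) + 1 := by push_cast; ring
  rw [hn] at h3
  have hk1 : (0 : ℝ) < (k : ℝ) + 1 := by positivity
  have hnu : 1 / ((k : ℝ) + 1) = nu k := rfl
  have hnu1 : 0 < nu k := by
    rw [← hnu]
    positivity
  have hnu2 : nu k * k = 1 - nu k := by
    rw [← hnu]
    field_simp
    ring
  rw [hnu] at h3
  refine ⟨ε₀, 1 + (3 * lam) ^ k + (2 * X₀ ^ (nu k + ε₀) + 1) ^ k, hε₀, by positivity,
    fun X hX => ?_⟩
  have hfin : {x : Fin (k + 1) → ℤ | Admissible x ∧ (rd x : ℝ) ≤ X ∧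
      (height x : ℝ) ≤ X ^ (nu k + ε₀)}.Finite :=
    (box_fin (k + 1) (X ^ (nu k + ε₀))).subset fun x hx => hx.2.2
  refine ⟨hfin, ?_⟩
  rw [Set.ncard_eq_toFinset_card _ hfin]
  obtain ⟨F, hF⟩ : ∃ F, F = hfin.toFinset := ⟨_, rfl⟩
  rw [← hF]
  have hF1 : ∀ x ∈ F, Admissible x ∧ (rd x : ℝ) ≤ X ∧ (height x : ℝ) ≤ X ^ (nu k + ε₀) := by
    intro x hx
    rw [hF, Set.Finite.mem_toFinset] at hx
    exact hx
  have hX1 : (1 : ℝ) ≤ X ^ (1 - nu k) := by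
    refine Real.one_le_rpow hX ?_
    rw [← hnu2]
    positivity
  rcases le_or_gt X₀ X with hc | hc
  · have h4 : ((F.filter fun x => Y ≤ Pool.Agent.H82.AS.ex (Pool.Agent.H38.EQ.pr x) ∨
        lam * X ^ nu k ≤ (height x : ℝ)).card : ℝ) ≤ 1 * X ^ (1 - nu k) := by
      refine h3 X _ hc fun x hx => ?_
      obtain ⟨h5, h6⟩ := Finset.mem_filter.1 hx
      obtain ⟨h7, h8, h9⟩ := hF1 x h5
      exact ⟨h7, h8, h9, h6⟩
    have h5 : ((F.filter fun x => ¬ (Y ≤ Pool.Agent.H82.AS.ex (Pool.Agent.H38.EQ.pr x) ∨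
        lam * X ^ nu k ≤ (height x : ℝ))).card : ℝ) ≤ (2 * (lam * X ^ nu k) + 1) ^ k := by
      refine box_card k _ (by positivity) _ fun x hx => ?_
      obtain ⟨h5, h6⟩ := Finset.mem_filter.1 hx
      push Not at h6
      exact ⟨h6.2.le, (hF1 x h5).1.2.2⟩
    have h6 : (2 * (lam * X ^ nu k) + 1) ^ k ≤ (3 * lam) ^ k * X ^ (1 - nu k) := by
      have h7 : (1 : ℝ) ≤ X ^ nu k := Real.one_le_rpow hX hnu1.le
      have h8 : 1 ≤ lam * X ^ nu k := one_le_mul_of_one_le_of_one_le hlam h7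
      calc (2 * (lam * X ^ nu k) + 1) ^ k ≤ (3 * lam * X ^ nu k) ^ k :=
            pow_le_pow_left₀ (by positivity) (by linarith) k
        _ = (3 * lam) ^ k * (X ^ nu k) ^ k := mul_pow _ _ _
        _ = (3 * lam) ^ k * X ^ (1 - nu k) := by
          rw [← Real.rpow_natCast (X ^ nu k) k, ← Real.rpow_mul (by linarith), hnu2]
    have h7 : (F.card : ℝ) = ((F.filter fun x => Y ≤ Pool.Agent.H82.AS.ex
        (Pool.Agent.H38.EQ.pr x) ∨ lam * X ^ nu k ≤ (height x : ℝ)).card : ℝ) +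
        ((F.filter fun x => ¬ (Y ≤ Pool.Agent.H82.AS.ex (Pool.Agent.H38.EQ.pr x) ∨
        lam * X ^ nu k ≤ (height x : ℝ))).card : ℝ) := by
      exact_mod_cast (Finset.card_filter_add_card_filter_not (s := F) _).symm
    rw [h7]
    have h8 : 0 ≤ (2 * X₀ ^ (nu k + ε₀) + 1) ^ k * X ^ (1 - nu k) := by positivity
    calc _ ≤ 1 * X ^ (1 - nu k) + (3 * lam) ^ k * X ^ (1 - nu k) :=
          add_le_add h4 (h5.trans h6)
      _ ≤ _ := by
        rw [add_mul, add_mul]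
        linarith
  · have h4 : (F.card : ℝ) ≤ (2 * X₀ ^ (nu k + ε₀) + 1) ^ k := by
      refine box_card k _ (by positivity) _ fun x hx => ⟨(hF1 x hx).2.2.trans ?_,
        (hF1 x hx).1.2.2⟩
      exact Real.rpow_le_rpow (by linarith) hc.le (by positivity)
    have h5 : 0 ≤ (3 * lam) ^ k := by positivity
    have h6 : (0 : ℝ) ≤ (2 * X₀ ^ (nu k + ε₀) + 1) ^ k := by positivity
    calc (F.card : ℝ) ≤ (2 * X₀ ^ (nu k + ε₀) + 1) ^ k := h4
      _ ≤ 1 + (3 * lam) ^ k + (2 * X₀ ^ (nu k + ε₀) + 1) ^ k := by linarith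
      _ ≤ _ := le_mul_of_one_le_right (by positivity) hX1

end Pool.Agent.H19.EQ
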